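import Pool.Agent.H.MP_603301_co.More

set_option autoImplicit false

namespace Pool.Agent.Results.MP_603301_co.Ranges

open Pool.Agent.H.MP_603301_co

theorem result :
    (∀ n : ℕ, 2 ≤ n → D 1 n = Set.Icc (n - 1) (n.choose 2)) ∧
    (∀ k n : ℕ, 2 ≤ n → n - 1 ≤ k → D k n = Set.Icc 1 (n.choose 2)) ∧
    (∀ k n m : ℕ, 2 ≤ k → 2 ≤ n → n / 2 ≤ m → m ≤ n.choose 2 → m ∈ D k n) ∧
    (∀ k n m : ℕ, 2 ≤ k → 2 ≤ n →
      16 * ((k : ℝ) + 1) ^ 2 * (n : ℝ) ^ ((2 : ℝ) / k) ≤ m → m ≤ n.choose 2 → m ∈ D k n) ∧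
    (∀ k L n m : ℕ, 2 ≤ k → 2 ≤ n → n ≤ L ^ k → sqCount k (4 * ((k + 1) * L) ^ 2) ≤ m →
      m ≤ n.choose 2 → m ∈ D k n) ∧
    (∀ k N n m : ℕ, m ∈ D k N → 2 * m ≤ n → n ≤ N → m ∈ D k n) := by
  refine ⟨dim_one, fun k n a b => high_dim k n a b, ?_, power_range, lower_range, ?_⟩
  · intro k n m hk hn h1 h2
    by_cases hm : n - 1 ≤ m
    · exact upper_range k n m (by omega) hn hm h2
    · exact polygon k n m hk (by omega) (by omega)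
  · rintro k N n m ⟨S, s1, s2⟩ h1 h2
    obtain ⟨U, u1, u2⟩ := shrink S n (by omega) (by omega)
    exact ⟨U, u1, by rw [u2, s2]⟩

end Pool.Agent.Results.MP_603301_co.Ranges
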